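import Pool.Agent.H65.AP.Targets

/-!
# Insulating cracks under an a priori bound, row RCH: cracks have positive reach
-/

open MeasureTheory Set Filter Topology Metric
open scoped ENNReal NNReal ContDiff RealInnerProductSpace

namespace Pool.Agent.H52.AP

open Pool.Agent.H94.IC Pool.Agent.H94.AC Pool.Agent.H92.CK Pool.Agent.H65.AP

/-- the second order estimate near a point -/
theorem taylor_near (Φ : E → E) (T : Set E) (hT : IsOpen T) (h0 : (0 : E) ∈ T) (hΦ : ContDiffOn ℝ ∞ Φ T) :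
    ∃ ρ > 0, closedBall (0 : E) ρ ⊆ T ∧ ∃ M : ℝ, 0 ≤ M ∧ ∀ a ∈ closedBall (0 : E) ρ, ∀ b ∈ closedBall (0 : E) ρ,
      ‖Φ b - Φ a - fderiv ℝ Φ a (b - a)‖ ≤ M * ‖b - a‖ ^ 2 := by
  have h1 : ContDiffOn ℝ 1 (fderiv ℝ Φ) T := hΦ.fderiv_of_isOpen hT (by norm_cast)
  have h2 : ContDiffAt ℝ 1 (fderiv ℝ Φ) 0 := h1.contDiffAt (hT.mem_nhds h0)
  obtain ⟨K, t, ht, hK⟩ := h2.exists_lipschitzOnWith
  obtain ⟨ρ, hρ, hρt⟩ := Metric.nhds_basis_closedBall.mem_iff.mp (inter_mem ht (hT.mem_nhds h0))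
  refine ⟨ρ, hρ, fun x hx => (hρt hx).2, K, K.coe_nonneg, ?_⟩
  intro a ha b hb
  have hs : Convex ℝ (closedBall (0 : E) ρ ∩ closedBall a ‖b - a‖) :=
    (convex_closedBall _ _).inter (convex_closedBall _ _)
  have h3 := hs.norm_image_sub_le_of_norm_hasFDerivWithin_le' (f := Φ) (f' := fun x => fderiv ℝ Φ x)
    (φ := fderiv ℝ Φ a) (C := K * ‖b - a‖) (x := a) (y := b) ?_ ?_ ⟨ha, by simp⟩
    ⟨hb, by simp [dist_eq_norm]⟩
  · calc ‖Φ b - Φ a - fderiv ℝ Φ a (b - a)‖ ≤ K * ‖b - a‖ * ‖b - a‖ := h3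
      _ = K * ‖b - a‖ ^ 2 := by ring
  · intro x hx
    exact ((hΦ.differentiableOn (by simp)).differentiableAt
      (hT.mem_nhds (hρt hx.1).2)).hasFDerivAt.hasFDerivWithinAt
  · intro x hx
    have := hK.dist_le_mul x (hρt hx.1).1 a (hρt ha).1
    rw [dist_eq_norm, dist_eq_norm] at this
    refine this.trans (mul_le_mul_of_nonneg_left ?_ K.coe_nonneg)
    have h4 := hx.2
    rwa [mem_closedBall, dist_eq_norm] at h4

theorem reach_local (S : Set E) (q : E) (half : Prop) (h : FlatChart S q half) :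
    ∃ V ∈ 𝓝 q, ∃ C : ℝ, 0 ≤ C ∧ ∀ p ∈ S, p ∈ V → ∀ y ∈ S, y ∈ V → ∀ x : E, dist x p = infDist x S →
      ⟪y - p, x - p⟫ ≤ C * ‖y - p‖ ^ 2 * ‖x - p‖ := by
  obtain ⟨Ψ, hq, hq0, hΨ, hΨs, hS⟩ := h
  have h0T : (0 : E) ∈ Ψ.target := by rw [← hq0]; exact Ψ.map_source hq
  obtain ⟨ρ, hρ, hρT, M, hM, htay⟩ := taylor_near Ψ.symm Ψ.target Ψ.open_target h0T hΨs
  have hΨq : ContDiffAt ℝ 1 Ψ q := (hΨ.of_le (by norm_cast)).contDiffAt (Ψ.open_source.mem_nhds hq)
  obtain ⟨L, t, ht, hL⟩ := hΨq.exists_lipschitzOnWith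
  have hpre : Ψ ⁻¹' closedBall (0 : E) ρ ∈ 𝓝 q := by
    apply hΨq.continuousAt.preimage_mem_nhds
    rw [hq0]
    exact closedBall_mem_nhds _ hρ
  refine ⟨t ∩ Ψ ⁻¹' closedBall (0 : E) ρ ∩ Ψ.source, inter_mem (inter_mem ht hpre) (Ψ.open_source.mem_nhds hq),
    M * L ^ 2, by positivity, ?_⟩
  rintro p hpS ⟨⟨hpt, hpρ⟩, hps⟩ y hyS ⟨⟨hyt, hyρ⟩, hys⟩ x hx
  have hpρ' : Ψ p ∈ closedBall (0 : E) ρ := hpρ
  have hyρ' : Ψ y ∈ closedBall (0 : E) ρ := hyρ
  set a := Ψ p with ha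
  set b := Ψ y with hb
  set D := fderiv ℝ Ψ.symm a (b - a) with hD
  have hsa : Ψ.symm a = p := Ψ.left_inv hps
  have hsb : Ψ.symm b = y := Ψ.left_inv hys
  have hab : ‖b - a‖ ≤ L * ‖y - p‖ := by
    have := hL.dist_le_mul y hyt p hpt
    rwa [dist_eq_norm, dist_eq_norm] at this
  have hpS' := (hS p hps).mp hpS
  have hyS' := (hS y hys).mp hyS
  -- points of the crack on the curve
  have hcur : ∀ s ∈ Icc (0 : ℝ) 1, a + s • (b - a) ∈ closedBall (0 : E) ρ ∧ Ψ.symm (a + s • (b - a)) ∈ S := by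
    intro s hs
    have hc : a + s • (b - a) ∈ closedBall (0 : E) ρ := by
      have := (convex_closedBall (0 : E) ρ) hpρ' hyρ' (sub_nonneg.mpr hs.2) hs.1 (by ring)
      have e : a + s • (b - a) = (1 - s) • a + s • b := by
        rw [smul_sub, sub_smul, one_smul]; abel
      rw [e]; exact this
    refine ⟨hc, ?_⟩
    have hcT := hρT hc
    rw [hS _ (Ψ.map_target hcT), Ψ.right_inv hcT]
    constructor
    · have e : (a + s • (b - a)) 2 = a 2 + s * (b 2 - a 2) := by simp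
      rw [e, hpS'.1, hyS'.1]; ring
    · intro hh
      have e : (a + s • (b - a)) 0 = (1 - s) * a 0 + s * b 0 := by
        simp; ring
      rw [e]
      have h1 := hpS'.2 hh
      have h2 := hyS'.2 hh
      have h3 : 0 ≤ 1 - s := sub_nonneg.mpr hs.2
      have := hs.1
      positivity
  have hR : ∀ s ∈ Icc (0 : ℝ) 1, ‖Ψ.symm (a + s • (b - a)) - p - s • D‖ ≤ M * ‖b - a‖ ^ 2 * s ^ 2 := by
    intro s hs
    have := htay a hpρ' _ (hcur s hs).1
    rw [hsa] at this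
    have e : a + s • (b - a) - a = s • (b - a) := by abel
    rw [e, map_smul, norm_smul, Real.norm_of_nonneg hs.1] at this
    calc _ ≤ M * (s * ‖b - a‖) ^ 2 := this
      _ = _ := by ring
  -- the distance inequality
  have hdist : ∀ s ∈ Icc (0 : ℝ) 1, 2 * ⟪x - p, Ψ.symm (a + s • (b - a)) - p⟫ ≤
      ‖Ψ.symm (a + s • (b - a)) - p‖ ^ 2 := by
    intro s hs
    have h1 : dist x p ≤ dist x (Ψ.symm (a + s • (b - a))) := by
      rw [hx]; exact infDist_le_dist_of_mem (hcur s hs).2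
    rw [dist_eq_norm, dist_eq_norm] at h1
    have h2 : x - Ψ.symm (a + s • (b - a)) = (x - p) - (Ψ.symm (a + s • (b - a)) - p) := by abel
    rw [h2] at h1
    have h3 := norm_sub_sq_real (x - p) (Ψ.symm (a + s • (b - a)) - p)
    have h4 : ‖x - p‖ ^ 2 ≤ ‖(x - p) - (Ψ.symm (a + s • (b - a)) - p)‖ ^ 2 :=
      pow_le_pow_left₀ (norm_nonneg _) h1 2
    linarith
  set N := M * ‖b - a‖ ^ 2 with hN
  have hN0 : 0 ≤ N := by positivity
  have hDle : ⟪x - p, D⟫ ≤ 0 := by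
    by_contra hcon
    have hpos : 0 < ⟪x - p, D⟫ := not_le.mp hcon
    set σ := ⟪x - p, D⟫ with hσ
    set Q := (‖D‖ + N) ^ 2 + 2 * ‖x - p‖ * N with hQ
    have hQ0 : 0 ≤ Q := by positivity
    have key : ∀ s ∈ Icc (0 : ℝ) 1, 2 * s * σ ≤ s ^ 2 * Q := by
      intro s hs
      have h1 := hdist s hs
      have h2 := hR s hs
      set w := Ψ.symm (a + s • (b - a)) - p with hw
      have h3 : ‖w‖ ≤ s * (‖D‖ + N) := by
        have e : w = s • D + (w - s • D) := by abel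
        calc ‖w‖ = ‖s • D + (w - s • D)‖ := by rw [← e]
          _ ≤ ‖s • D‖ + ‖w - s • D‖ := norm_add_le _ _
          _ ≤ s * ‖D‖ + N * s ^ 2 := by
              rw [norm_smul, Real.norm_of_nonneg hs.1]
              linarith
          _ ≤ s * ‖D‖ + N * s := by
              have : s ^ 2 ≤ s := by nlinarith [hs.1, hs.2]
              have := mul_le_mul_of_nonneg_left this hN0
              linarith
          _ = _ := by ring
      have h4 : ⟪x - p, w⟫ = s * σ + ⟪x - p, w - s • D⟫ := by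
        have e : w = s • D + (w - s • D) := by abel
        calc ⟪x - p, w⟫ = ⟪x - p, s • D + (w - s • D)⟫ := by rw [← e]
          _ = _ := by rw [inner_add_right, inner_smul_right]
      have h5 : -(‖x - p‖ * (N * s ^ 2)) ≤ ⟪x - p, w - s • D⟫ := by
        have h6 := abs_real_inner_le_norm (x - p) (w - s • D)
        have h7 := mul_le_mul_of_nonneg_left h2 (norm_nonneg (x - p))
        have h8 := neg_abs_le ⟪x - p, w - s • D⟫
        linarith
      have h9 : ‖w‖ ^ 2 ≤ (s * (‖D‖ + N)) ^ 2 := pow_le_pow_left₀ (norm_nonneg _) h3 2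
      rw [hQ]
      nlinarith
    have hs0 : 0 < min 1 (σ / (Q + 1)) := lt_min one_pos (by positivity)
    have hs1 : min 1 (σ / (Q + 1)) ∈ Icc (0 : ℝ) 1 := ⟨hs0.le, min_le_left _ _⟩
    have h1 := key _ hs1
    set s := min 1 (σ / (Q + 1)) with hs
    have h2 : s * (Q + 1) ≤ σ := by
      have : s ≤ σ / (Q + 1) := min_le_right _ _
      rwa [le_div_iff₀ (by positivity)] at this
    have h3 : 2 * σ ≤ s * Q := by
      have : s * (2 * σ) ≤ s * (s * Q) := by nlinarith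
      exact le_of_mul_le_mul_left this hs0
    nlinarith
  have hfin := hR 1 ⟨zero_le_one, le_refl _⟩
  have e1 : a + (1 : ℝ) • (b - a) = b := by rw [one_smul]; abel
  rw [e1, hsb, one_smul] at hfin
  have h4 : ⟪y - p, x - p⟫ = ⟪x - p, D⟫ + ⟪x - p, y - p - D⟫ := by
    have e : y - p = D + (y - p - D) := by abel
    calc ⟪y - p, x - p⟫ = ⟪x - p, y - p⟫ := real_inner_comm _ _
      _ = ⟪x - p, D + (y - p - D)⟫ := by rw [← e]
      _ = _ := by rw [inner_add_right]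
  have h5 : ⟪x - p, y - p - D⟫ ≤ ‖x - p‖ * (N * 1 ^ 2) :=
    (real_inner_le_norm _ _).trans (mul_le_mul_of_nonneg_left hfin (norm_nonneg _))
  have h6 : N ≤ M * (L * ‖y - p‖) ^ 2 :=
    mul_le_mul_of_nonneg_left (pow_le_pow_left₀ (norm_nonneg _) hab 2) hM
  have h7 := mul_le_mul_of_nonneg_left h6 (norm_nonneg (x - p))
  calc ⟪y - p, x - p⟫ ≤ ‖x - p‖ * N := by rw [h4]; linarith
    _ ≤ ‖x - p‖ * (M * (L * ‖y - p‖) ^ 2) := h7
    _ = _ := by ring

theorem reach_global (S : Set E) (hS : IsCompact S) (h : ∀ q ∈ S, ∃ half : Prop, FlatChart S q half) :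
    ∃ C : ℝ, 0 ≤ C ∧ ∀ z ∈ S ×ˢ S, ∀ x : E, dist x z.1 = infDist x S →
      ⟪z.2 - z.1, x - z.1⟫ ≤ C * ‖z.2 - z.1‖ ^ 2 * ‖x - z.1‖ := by
  refine (hS.prod hS).induction_on (p := fun T : Set (E × E) => ∃ C : ℝ, 0 ≤ C ∧ ∀ z ∈ T, ∀ x : E,
    dist x z.1 = infDist x S → ⟪z.2 - z.1, x - z.1⟫ ≤ C * ‖z.2 - z.1‖ ^ 2 * ‖x - z.1‖) ?_ ?_ ?_ ?_
  · exact ⟨0, le_refl _, fun z hz => absurd hz (notMem_empty z)⟩
  · rintro s t hst ⟨C, hC, H⟩
    exact ⟨C, hC, fun z hz => H z (hst hz)⟩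
  · rintro s t ⟨C, hC, H⟩ ⟨C', hC', H'⟩
    refine ⟨max C C', hC.trans (le_max_left _ _), ?_⟩
    rintro z (hz | hz) x hx
    · refine (H z hz x hx).trans ?_
      gcongr
      exact le_max_left _ _
    · refine (H' z hz x hx).trans ?_
      gcongr
      exact le_max_right _ _
  · rintro ⟨p0, y0⟩ ⟨hp0, hy0⟩
    by_cases he : p0 = y0
    · subst he
      obtain ⟨half, hch⟩ := h p0 hp0
      obtain ⟨V, hV, C, hC, H⟩ := reach_local S p0 half hch
      refine ⟨(V ×ˢ V) ∩ (S ×ˢ S), ?_, C, hC, ?_⟩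
      · rw [nhdsWithin]
        refine inter_mem_inf ?_ (mem_principal_self _)
        exact prod_mem_nhds hV hV
      · rintro z ⟨⟨h1, h2⟩, h3, h4⟩ x hx
        exact H z.1 h3 h1 z.2 h4 h2 x hx
    · have hd : 0 < dist y0 p0 := dist_pos.mpr (Ne.symm he)
      refine ⟨{z : E × E | dist y0 p0 / 2 < dist z.2 z.1}, mem_nhdsWithin_of_mem_nhds ?_, 2 / dist y0 p0,
        by positivity, ?_⟩
      · refine (isOpen_lt continuous_const (continuous_snd.dist continuous_fst)).mem_nhds ?_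
        show dist y0 p0 / 2 < dist y0 p0
        linarith
      · intro z hz x _
        have hz' : dist y0 p0 / 2 < ‖z.2 - z.1‖ := by rw [← dist_eq_norm]; exact hz
        have h1 : 1 ≤ 2 / dist y0 p0 * ‖z.2 - z.1‖ := by
          rw [div_mul_eq_mul_div, le_div_iff₀ hd]
          linarith
        calc ⟪z.2 - z.1, x - z.1⟫ ≤ ‖z.2 - z.1‖ * ‖x - z.1‖ := real_inner_le_norm _ _
          _ ≤ (2 / dist y0 p0 * ‖z.2 - z.1‖) * (‖z.2 - z.1‖ * ‖x - z.1‖) := by
              have : 0 ≤ ‖z.2 - z.1‖ * ‖x - z.1‖ := by positivity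
              nlinarith
          _ = _ := by ring

theorem reach_of_global (S : Set E) (C : ℝ) (hC : 0 ≤ C)
    (H : ∀ z ∈ S ×ˢ S, ∀ x : E, dist x z.1 = infDist x S →
      ⟪z.2 - z.1, x - z.1⟫ ≤ C * ‖z.2 - z.1‖ ^ 2 * ‖x - z.1‖) :
    ∀ (x p : E), p ∈ S → 0 < dist x p → dist x p = infDist x S →
      infDist (p + ((1 / (2 * (C + 1))) / dist x p) • (x - p)) S = 1 / (2 * (C + 1)) := by
  intro x p hp hxp hd
  set r := 1 / (2 * (C + 1)) with hr
  have hr0 : 0 < r := by positivity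
  have hrC : 2 * r * (C + 1) = 1 := by rw [hr]; field_simp
  have hn : 0 < ‖x - p‖ := by rwa [dist_eq_norm] at hxp
  apply le_antisymm
  · refine (infDist_le_dist_of_mem hp).trans ?_
    rw [dist_eq_norm, add_sub_cancel_left, norm_smul, dist_eq_norm, norm_div, norm_norm,
      Real.norm_of_nonneg hr0.le, div_mul_cancel₀ _ hn.ne']
  · rw [le_infDist ⟨p, hp⟩]
    intro y hy
    rw [dist_eq_norm, dist_eq_norm]
    have h1 := H (p, y) ⟨hp, hy⟩ x hd
    simp only at h1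
    have e : p + (r / ‖x - p‖) • (x - p) - y = (r / ‖x - p‖) • (x - p) - (y - p) := by abel
    rw [e]
    refine (pow_le_pow_iff_left₀ hr0.le (norm_nonneg _) two_ne_zero).mp ?_
    rw [norm_sub_sq_real, norm_smul, norm_div, norm_norm, Real.norm_of_nonneg hr0.le,
      div_mul_cancel₀ _ hn.ne', inner_smul_left]
    have h2 : (r / ‖x - p‖) * ⟪y - p, x - p⟫ ≤ r * (C * ‖y - p‖ ^ 2) := by
      have h3 := mul_le_mul_of_nonneg_left h1 (show 0 ≤ r / ‖x - p‖ by positivity)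
      refine h3.trans (le_of_eq ?_)
      field_simp
    rw [real_inner_comm] at h2
    have h4 : 2 * r * C ≤ 1 := by nlinarith
    have h5 : 2 * (r * (C * ‖y - p‖ ^ 2)) ≤ ‖y - p‖ ^ 2 := by nlinarith [sq_nonneg ‖y - p‖]
    simp only [conj_trivial]
    linarith

theorem pf_RCH (_hEDC : T_EDC) : T_RCH := by
  intro Ω S hcr
  have hch : ∀ q ∈ S, ∃ half : Prop, FlatChart S q half := by
    intro q hq
    rcases hcr.chart q hq with h | h
    · exact ⟨False, h.2⟩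
    · exact ⟨True, h.2⟩
  obtain ⟨C, hC, H⟩ := reach_global S hcr.cpt hch
  refine ⟨1 / (2 * (C + 1)), by positivity, ?_⟩
  intro x p hp h0 _ hd
  exact reach_of_global S C hC H x p hp h0 hd

end Pool.Agent.H52.AP
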