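import Pool.Agent.H65.AP.Targets

/-!
# Insulating cracks under an a priori bound, row WCH: finitely many channels to the outside
-/

open MeasureTheory Set Filter Topology Metric
open scoped ENNReal NNReal ContDiff RealInnerProductSpace

namespace Pool.Agent.H52.AP

open Pool.Agent.H94.IC Pool.Agent.H94.AC Pool.Agent.H92.CK Pool.Agent.H65.AP

theorem pf_WCH : T_WCH := by
  intro Ω r hb hr
  classical
  obtain ⟨R, hR0, hR⟩ := hb.closure.subset_ball_lt 0 0
  have hr8 : (0 : ℝ) < r / 8 := by positivity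
  obtain ⟨F, -, hF, hcov⟩ := (isCompact_closedBall (0 : E) R).finite_cover_balls hr8
  have hfin : Set.Finite {W : Set E | ∃ F1 : Set E, F1 ⊆ F ∧ W = ⋃ f ∈ F1, ball f (r / 4) ∧
      IsPreconnected W ∧ (W ∩ (closure Ω)ᶜ).Nonempty} := by
    refine (hF.finite_subsets.image (fun F1 => ⋃ f ∈ F1, ball f (r / 4))).subset ?_
    rintro W ⟨F1, h1, h2, -⟩
    exact ⟨F1, h1, h2.symm⟩
  refine ⟨hfin.toFinset, ?_, ?_⟩
  · intro W hW
    obtain ⟨F1, h1, h2, h3, h4⟩ := hfin.mem_toFinset.mp hW
    refine ⟨?_, h3, h4⟩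
    rw [h2]
    exact isOpen_biUnion fun f _ => isOpen_ball
  · intro S x hS hx hxS hz
    obtain ⟨z, hzC, hzO⟩ := hz
    have hU : IsOpen {y : E | r < infDist y S} :=
      isOpen_lt continuous_const (continuous_infDist_pt S)
    have hC : IsOpen (connectedComponentIn {y : E | r < infDist y S} x) := hU.connectedComponentIn
    have hxU : x ∈ {y : E | r < infDist y S} := hxS
    have hcon : IsConnected (connectedComponentIn {y : E | r < infDist y S} x) :=
      isConnected_connectedComponentIn_iff.mpr hxU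
    have hpc := (hC.isConnected_iff_isPathConnected).mp hcon
    have hj : JoinedIn (connectedComponentIn {y : E | r < infDist y S} x) x z :=
      hpc.joinedIn x (mem_connectedComponentIn hxU) z hzC
    have hxR : ‖x‖ < R := by simpa using hR (subset_closure hx)
    set γ := hj.somePath with hγ
    have hγC : ∀ t : ℝ, γ.extend t ∈ {y : E | r < infDist y S} := by
      intro t
      refine connectedComponentIn_subset {y : E | r < infDist y S} x ?_
      obtain ⟨s, hs⟩ : γ.extend t ∈ range γ := by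
        rw [← Path.extend_range γ]
        exact mem_range_self t
      rw [← hs]
      exact hj.somePath_mem s
    have hγc : Continuous (fun t : ℝ => γ.extend t) := γ.continuous_extend
    have hγn : Continuous (fun t : ℝ => ‖γ.extend t‖) := hγc.norm
    -- the cut
    obtain ⟨K, hxK, hKU, hKR, hKc, hKO⟩ : ∃ K : Set E, x ∈ K ∧ (∀ y ∈ K, r < infDist y S) ∧
        (∀ y ∈ K, ‖y‖ ≤ R) ∧ IsPreconnected K ∧ (K ∩ (closure Ω)ᶜ).Nonempty := by
      by_cases hcase : ∃ t ∈ Icc (0 : ℝ) 1, R ≤ ‖γ.extend t‖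
      · obtain ⟨t1, ht1, hRt⟩ := hcase
        have hivt : ∀ t, t ∈ Icc (0 : ℝ) 1 → R ≤ ‖γ.extend t‖ → ∃ s ∈ Icc (0 : ℝ) t, ‖γ.extend s‖ = R := by
          intro t ht hRt
          have := intermediate_value_Icc ht.1 hγn.continuousOn
          have hmem : R ∈ Icc (‖γ.extend 0‖) (‖γ.extend t‖) := by
            refine ⟨?_, hRt⟩
            rw [γ.extend_zero]
            exact hxR.le
          obtain ⟨s, hs, hs'⟩ := this hmem
          exact ⟨s, hs, hs'⟩
        have hTc : IsCompact {t : ℝ | t ∈ Icc (0 : ℝ) 1 ∧ ‖γ.extend t‖ = R} :=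
          isCompact_Icc.inter_right (isClosed_eq hγn continuous_const)
        have hTn : {t : ℝ | t ∈ Icc (0 : ℝ) 1 ∧ ‖γ.extend t‖ = R}.Nonempty := by
          obtain ⟨s, hs, hs'⟩ := hivt t1 ht1 hRt
          exact ⟨s, ⟨hs.1, hs.2.trans ht1.2⟩, hs'⟩
        obtain ⟨t0, ht0, hleast⟩ := hTc.exists_isLeast hTn
        refine ⟨(fun t : ℝ => γ.extend t) '' Icc 0 t0, ⟨0, ⟨le_refl _, ht0.1.1⟩, γ.extend_zero⟩, ?_, ?_, ?_, ?_⟩
        · rintro y ⟨t, -, rfl⟩
          exact hγC t
        · rintro y ⟨t, ht, rfl⟩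
          by_contra hcon
          have hlt : R < ‖γ.extend t‖ := not_le.mp hcon
          have ht1' : t ∈ Icc (0 : ℝ) 1 := ⟨ht.1, ht.2.trans ht0.1.2⟩
          obtain ⟨s, hs, hs'⟩ := hivt t ht1' hlt.le
          have h1 := hleast ⟨⟨hs.1, hs.2.trans ht1'.2⟩, hs'⟩
          have h2 : s = t := le_antisymm hs.2 (ht.2.trans h1)
          rw [h2] at hs'
          exact absurd hs' hlt.ne'
        · exact isPreconnected_Icc.image _ hγc.continuousOn
        · refine ⟨γ.extend t0, ⟨t0, ⟨ht0.1.1, le_refl _⟩, rfl⟩, ?_⟩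
          intro hmem
          have := hR hmem
          rw [mem_ball_zero_iff] at this
          exact absurd ht0.2 this.ne
      · push Not at hcase
        refine ⟨(fun t : ℝ => γ.extend t) '' Icc 0 1, ⟨0, ⟨le_refl _, zero_le_one⟩, γ.extend_zero⟩, ?_, ?_, ?_, ?_⟩
        · rintro y ⟨t, -, rfl⟩
          exact hγC t
        · rintro y ⟨t, ht, rfl⟩
          exact (hcase t ht).le
        · exact isPreconnected_Icc.image _ hγc.continuousOn
        · exact ⟨z, ⟨1, ⟨zero_le_one, le_refl _⟩, γ.extend_one⟩, hzO⟩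
    -- the union of balls
    have hcovK : ∀ y ∈ K, ∃ f ∈ F, dist y f < r / 8 := by
      intro y hy
      have := hcov (show y ∈ closedBall (0 : E) R by simpa using hKR y hy)
      simpa using this
    have hKW : K ⊆ ⋃ f ∈ {f ∈ F | ∃ y ∈ K, dist y f < r / 8}, ball f (r / 4) := by
      intro y hy
      obtain ⟨f, hf, hyf⟩ := hcovK y hy
      refine mem_biUnion (show f ∈ {f ∈ F | ∃ y ∈ K, dist y f < r / 8} from ⟨hf, y, hy, hyf⟩) ?_
      rw [mem_ball]
      linarith
    refine ⟨⋃ f ∈ {f ∈ F | ∃ y ∈ K, dist y f < r / 8}, ball f (r / 4), ?_, ?_, ?_⟩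
    · refine hfin.mem_toFinset.mpr ⟨{f ∈ F | ∃ y ∈ K, dist y f < r / 8}, fun f hf => hf.1, rfl, ?_, ?_⟩
      · refine isPreconnected_of_forall x ?_
        intro y hy
        obtain ⟨f, hf, hyf⟩ := mem_iUnion₂.mp hy
        refine ⟨K ∪ ball f (r / 4), union_subset hKW ?_, Or.inl hxK, Or.inr hyf, ?_⟩
        · exact subset_biUnion_of_mem (u := fun f => ball f (r / 4)) hf
        · obtain ⟨-, k, hk, hkf⟩ := hf
          refine IsPreconnected.union' ⟨k, hk, ?_⟩ hKc (convex_ball _ _).isPreconnected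
          rw [mem_ball]
          linarith
      · obtain ⟨k, hk, hk'⟩ := hKO
        exact ⟨k, hKW hk, hk'⟩
    · intro y hy
      obtain ⟨f, hf, hxf⟩ := hcovK x hxK
      refine mem_biUnion (show f ∈ {f ∈ F | ∃ y ∈ K, dist y f < r / 8} from ⟨hf, x, hxK, hxf⟩) ?_
      rw [mem_ball] at hy ⊢
      have := dist_triangle y x f
      linarith
    · intro y hy
      obtain ⟨f, ⟨-, k, hk, hkf⟩, hyf⟩ := mem_iUnion₂.mp hy
      rw [mem_ball] at hyf
      have h1 := infDist_le_infDist_add_dist (s := S) (x := k) (y := y)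
      have h2 := dist_triangle k f y
      rw [dist_comm f y] at h2
      have h3 := hKU k hk
      linarith

end Pool.Agent.H52.AP
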